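import Pool.Agent.N600.L3.Stm
import Pool.Agent.H648R4.Nilp

/-!
Project L3 (helper600), part HALL (helper40): P. Hall's criterion.
-/

set_option autoImplicit false

namespace Pool.Agent.N40.L3

open Pool.Agent.N600.L3

universe u

/-- P. Hall's criterion for groups with a nilpotent derived subgroup -/
theorem t_hall : S_HALL.{u} := by
  intro M _ _ hn hv
  obtain ⟨c, hc⟩ := (Subgroup.isNilpotent_iff_lowerCentralSeries (commutator M)).1 hn
  obtain ⟨H, hH, hHf⟩ := hv
  obtain ⟨K, hK1, hK2⟩ := Pool.Agent.H648R4.virt_of_quot hc ⟨H, hHf, hH⟩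
  exact ⟨K, hK2, hK1⟩

end Pool.Agent.N40.L3
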